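import Mathlib
import Pool.Agent.H62.ZN.Main
import Pool.Agent.H62.ZN.Numeric

/-!
# MP_07f90a_co: `m(n,k)` is `k ^ (-1 - o(1))` times the binomial coefficient

For every `ε > 0` there is `c > 0` such that `m(n,k) ≥ c k ^ (-1 - ε) C(n,k)` for all `k ≥ 2` and
all `n`.  The double counting bound is `m(n,k) ≤ 2 C(n,k) / (k + 1)`.
-/

namespace Pool.Agent.Results.MP_07f90a_co.NearOptimalLowerBound

open Pool.Agent.H63ZT Pool.Agent.H62.ZN

/-- A family `H` of `k`-element subsets of an `n`-element set is admissible if every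
`(k+1)`-element subset contains exactly `0` or exactly `2` members of `H`. -/
def Admissible (n k : ℕ) (H : Finset (Finset (Fin n))) : Prop :=
  (∀ E ∈ H, E.card = k) ∧
    ∀ S : Finset (Fin n), S.card = k + 1 →
      (H.filter (fun E => E ⊆ S)).card = 0 ∨ (H.filter (fun E => E ⊆ S)).card = 2

/-- `m n k` is the largest size of an admissible `k`-uniform family on `n` points. -/
noncomputable def m (n k : ℕ) : ℕ :=
  sSup {h : ℕ | ∃ H : Finset (Finset (Fin n)), Admissible n k H ∧ H.card = h}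

lemma le_m {n k : ℕ} {H : Finset (Finset (Fin n))} (hH : Admissible n k H) : H.card ≤ m n k := by
  refine le_csSup ⟨Fintype.card (Finset (Fin n)), ?_⟩ ⟨H, hH, rfl⟩
  rintro _ ⟨H', -, rfl⟩
  exact Finset.card_le_univ _

lemma choose_le {n k b : ℕ} (hk : 1 ≤ k) (h : Dense n k 1 b) : n.choose k ≤ b * m n k := by
  rcases lt_or_ge n k with hn | hn
  · rw [Nat.choose_eq_zero_of_lt hn]
    exact Nat.zero_le _
  · obtain ⟨H, hH1, hH2, hH3⟩ := exists_fam hk hn h
    rw [one_mul] at hH3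
    exact hH3.trans (Nat.mul_le_mul_left _ (le_m ⟨hH1, hH2⟩))

/-- **Theorem.** For every `ε > 0` there is `c > 0` such that for all `k ≥ 2` and all `n`
`m(n,k) ≥ c k ^ (-1 - ε) C(n,k)`. -/
theorem result (ε : ℝ) (hε : 0 < ε) : ∃ c : ℝ, 0 < c ∧ ∀ n k : ℕ, 2 ≤ k →
    c * (k : ℝ) ^ (-1 - ε) * (n.choose k : ℝ) ≤ m n k := by
  obtain ⟨C, hC, h⟩ := numeric ε hε
  refine ⟨1 / C, by positivity, fun n k hk => ?_⟩
  obtain ⟨J, N, L, h1, h2, h3, h4, h5⟩ := h k hk
  have h6 := choose_le (by omega) (dense_main (n := n) hk h1 h2 h3 h4)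
  have h7 : (n.choose k : ℝ) ≤
      ((12 * (2 * (RR L J).card * (((2 * (RR L J).card + 1) * N + 1) * 4)) : ℕ) : ℝ) * m n k := by
    exact_mod_cast h6
  have h8 : (n.choose k : ℝ) ≤ (C * (k : ℝ) ^ (1 + ε)) * m n k :=
    h7.trans (mul_le_mul_of_nonneg_right h5 (Nat.cast_nonneg _))
  have hk0 : (0 : ℝ) < k := by exact_mod_cast (by omega : 0 < k)
  have h9 : (k : ℝ) ^ (-1 - ε) * (k : ℝ) ^ (1 + ε) = 1 := by
    rw [← Real.rpow_add hk0]
    have : (-1 - ε + (1 + ε)) = 0 := by ring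
    rw [this, Real.rpow_zero]
  have h10 : 0 ≤ (k : ℝ) ^ (-1 - ε) := (Real.rpow_pos_of_pos hk0 _).le
  calc 1 / C * (k : ℝ) ^ (-1 - ε) * (n.choose k : ℝ)
      ≤ 1 / C * (k : ℝ) ^ (-1 - ε) * ((C * (k : ℝ) ^ (1 + ε)) * m n k) :=
        mul_le_mul_of_nonneg_left h8 (by positivity)
    _ = (1 / C * C) * ((k : ℝ) ^ (-1 - ε) * (k : ℝ) ^ (1 + ε)) * m n k := by ring
    _ = m n k := by rw [h9, one_div_mul_cancel hC.ne']; ring

end Pool.Agent.Results.MP_07f90a_co.NearOptimalLowerBound
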