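import Mathlib

/-!
# A polynomial lower bound for `m(n,k)`

Let `N = k (k - 1)`.  Colour the `n` points with residues modulo `N` by an arbitrary map `f`.  A
`k`-set on which `f` is injective is an edge when, after sorting its labels increasingly, the sum of
every second label (starting with the second one; for even `k` also starting with the first one) is
the prescribed residue `t`.  For a `(k + 1)`-set the relevant alternating sums form a strictly
decreasing chain with total drop less than `N`, each value belonging to exactly two `k`-subsets, so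
`0` or `2` of the `k`-subsets are edges.  Averaging over `f` and `t` gives the bound.
-/

open Finset

namespace Pool.Agent.Results.MP_07f90a_co.PolynomialLowerBound

/-- `H` is an admissible family: a `k`-uniform family on `n` points such that every set of `k + 1`
points contains exactly `0` or exactly `2` members of `H`. -/
def Admissible (n k : ℕ) (H : Finset (Finset (Fin n))) : Prop :=
  (∀ E ∈ H, E.card = k) ∧
    ∀ S : Finset (Fin n), S.card = k + 1 →
      (H.filter (fun E => E ⊆ S)).card = 0 ∨ (H.filter (fun E => E ⊆ S)).card = 2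

/-- `m n k` is the largest size of an admissible `k`-uniform family on `n` points. -/
noncomputable def m (n k : ℕ) : ℕ :=
  sSup {h : ℕ | ∃ H : Finset (Finset (Fin n)), Admissible n k H ∧ H.card = h}

/-! ### Part 1: chains of integers modulo `N` -/

lemma chain_lemma (F : ℕ → ℤ) (M N : ℕ) (s : ZMod N)
    (hpair : ∀ i, i < M → F (2 * i + 1) = F (2 * i))
    (hdec : ∀ i, i + 1 < M → F (2 * i + 2) < F (2 * i + 1))
    (hrange : F 0 - F (2 * M - 1) < N) :
    (∀ p, p < 2 * M → (F p : ZMod N) ≠ s) ∨
      ∃ i, i < M ∧ ∀ p, p < 2 * M → ((F p : ZMod N) = s ↔ (p = 2 * i ∨ p = 2 * i + 1)) := by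
  -- values only depend on `p / 2`
  have hhalf : ∀ p, p < 2 * M → F p = F (2 * (p / 2)) := by
    intro p hp
    rcases Nat.mod_two_eq_zero_or_one p with h | h
    · congr 1; omega
    · have := hpair (p / 2) (by omega)
      rw [← this]; congr 1; omega
  have hstep : ∀ i, i + 1 < M → F (2 * (i + 1)) < F (2 * i) := by
    intro i hi
    have h1 := hdec i hi
    rw [hpair i (by omega)] at h1
    exact h1
  have hlt : ∀ d i, i + d + 1 < M → F (2 * (i + d + 1)) < F (2 * i) := by
    intro d
    induction d with
    | zero => intro i hi; exact hstep i hi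
    | succ d ih =>
      intro i hi
      have h1 := hstep (i + d + 1) (by omega)
      have h2 := ih i (by omega)
      have e : i + (d + 1) + 1 = i + d + 1 + 1 := by ring
      rw [e]
      exact h1.trans h2
  have hlt' : ∀ i j, i < j → j < M → F (2 * j) < F (2 * i) := by
    intro i j hij hj
    have := hlt (j - i - 1) i (by omega)
    have e : i + (j - i - 1) + 1 = j := by omega
    rwa [e] at this
  have hle0 : ∀ i, i < M → F (2 * i) ≤ F 0 := by
    intro i hi
    rcases Nat.eq_zero_or_pos i with h | h
    · subst h; exact le_rfl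
    · have := hlt' 0 i h hi
      simpa using this.le
  have hleM : ∀ i, i < M → F (2 * M - 1) ≤ F (2 * i) := by
    intro i hi
    have e : F (2 * M - 1) = F (2 * (M - 1)) := by
      rw [hhalf (2 * M - 1) (by omega)]; congr 1; omega
    rw [e]
    rcases Nat.lt_or_ge i (M - 1) with h | h
    · exact (hlt' i (M - 1) h (by omega)).le
    · have : i = M - 1 := by omega
      rw [this]
  by_cases hex : ∃ p, p < 2 * M ∧ (F p : ZMod N) = s
  · right
    obtain ⟨p0, hp0, hs⟩ := hex
    refine ⟨p0 / 2, by omega, ?_⟩
    intro p hp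
    constructor
    · intro h
      have h1 : ((F (2 * (p / 2)) : ℤ) : ZMod N) = ((F (2 * (p0 / 2)) : ℤ) : ZMod N) := by
        rw [← hhalf p hp, ← hhalf p0 hp0, h, hs]
      have h2 := (ZMod.intCast_eq_intCast_iff_dvd_sub _ _ _).mp h1
      have a1 := hle0 (p / 2) (by omega)
      have a2 := hleM (p / 2) (by omega)
      have a3 := hle0 (p0 / 2) (by omega)
      have a4 := hleM (p0 / 2) (by omega)
      have h3 : F (2 * (p0 / 2)) - F (2 * (p / 2)) = 0 := by
        apply Int.eq_zero_of_abs_lt_dvd h2
        rw [abs_lt]
        constructor <;> linarith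
      have h4 : p / 2 = p0 / 2 := by
        rcases lt_trichotomy (p / 2) (p0 / 2) with h | h | h
        · have := hlt' _ _ h (by omega); omega
        · exact h
        · have := hlt' _ _ h (by omega); omega
      omega
    · intro h
      have : p / 2 = p0 / 2 := by omega
      rw [hhalf p hp, this, ← hhalf p0 hp0, hs]
  · left
    intro p hp h
    exact hex ⟨p, hp, h⟩

/-! ### Part 2: alternating sums after removal of one index -/

/-- Sum of the terms with (index + b) even, after the index `p` has been removed from the
sequence `s 0, …, s k` and the later indices have been shifted down by one. -/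
def A (s : ℕ → ℤ) (k b p : ℕ) : ℤ :=
  ∑ i ∈ range (k + 1), if (i < p ∧ (i + b) % 2 = 0) ∨ (p < i ∧ (i + b) % 2 = 1) then s i else 0

lemma A_step (s : ℕ → ℤ) (k b p : ℕ) (hp : p + 1 ≤ k) :
    A s k b (p + 1) = A s k b p + (if (p + b) % 2 = 0 then s p - s (p + 1) else 0) := by
  unfold A
  have h1 : ∀ i ∈ range (k + 1),
      (if (i < p + 1 ∧ (i + b) % 2 = 0) ∨ (p + 1 < i ∧ (i + b) % 2 = 1) then s i else 0)
      = (if (i < p ∧ (i + b) % 2 = 0) ∨ (p < i ∧ (i + b) % 2 = 1) then s i else 0)
        + ((if i = p then (if (p + b) % 2 = 0 then s p else 0) else 0)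
        + (if i = p + 1 then (if (p + b) % 2 = 0 then - s (p + 1) else 0) else 0)) := by
    intro i _
    by_cases c1 : i = p
    · subst c1
      by_cases c2 : (i + b) % 2 = 0
      · rw [if_pos (by omega), if_neg (by omega), if_pos rfl, if_pos c2, if_neg (by omega)]; ring
      · rw [if_neg (by omega), if_neg (by omega), if_pos rfl, if_neg c2, if_neg (by omega)]; ring
    by_cases c3 : i = p + 1
    · subst c3
      by_cases c2 : (p + b) % 2 = 0
      · rw [if_neg (by omega), if_pos (by omega), if_neg (by omega), if_pos rfl, if_pos c2]; ring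
      · rw [if_neg (by omega), if_neg (by omega), if_neg (by omega), if_pos rfl, if_neg c2]; ring
    · rw [if_neg c1, if_neg c3]
      by_cases c4 : (i < p ∧ (i + b) % 2 = 0) ∨ (p < i ∧ (i + b) % 2 = 1)
      · rw [if_pos (by omega), if_pos c4]; ring
      · rw [if_neg (by omega), if_neg c4]; ring
  have m1 : p ∈ range (k + 1) := by rw [mem_range]; omega
  have m2 : p + 1 ∈ range (k + 1) := by rw [mem_range]; omega
  rw [Finset.sum_congr rfl h1, Finset.sum_add_distrib, Finset.sum_add_distrib,
    Finset.sum_ite_eq', Finset.sum_ite_eq', if_pos m1, if_pos m2]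
  split_ifs <;> ring

/-- total drop of both alternating sums -/
lemma A_drop (s : ℕ → ℤ) (k p : ℕ) (hp : p ≤ k) :
    (A s k 1 0 - A s k 1 p) + (A s k 0 0 - A s k 0 p) = s p - s 0 := by
  induction p with
  | zero => ring
  | succ p ih =>
    have h := ih (by omega)
    have h1 := A_step s k 1 p hp
    have h0 := A_step s k 0 p hp
    rcases Nat.mod_two_eq_zero_or_one p with hm | hm
    · rw [if_neg (by omega)] at h1
      rw [if_pos (by omega)] at h0
      linarith
    · rw [if_pos (by omega)] at h1
      rw [if_neg (by omega)] at h0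
      linarith

lemma A_antitone (s : ℕ → ℤ) (k b p : ℕ) (hs : ∀ i, i < k → s i < s (i + 1)) (hp : p ≤ k) :
    A s k b p ≤ A s k b 0 := by
  induction p with
  | zero => exact le_rfl
  | succ p ih =>
    have h := ih (by omega)
    have h1 := A_step s k b p hp
    have h2 := hs p (by omega)
    split_ifs at h1 <;> linarith

/-- In the odd case exactly `0` or `2` removals give the prescribed sum. -/
lemma odd_case (s : ℕ → ℤ) (k N : ℕ) (hk : k % 2 = 1) (hs : ∀ i, i < k → s i < s (i + 1))
    (hN : s k - s 0 < N) (t : ZMod N) :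
    ((range (k + 1)).filter (fun p => (A s k 1 p : ZMod N) = t)).card = 0 ∨
      ((range (k + 1)).filter (fun p => (A s k 1 p : ZMod N) = t)).card = 2 := by
  have hM : 2 * ((k + 1) / 2) = k + 1 := by omega
  have key := chain_lemma (A s k 1) ((k + 1) / 2) N t
    (by
      intro i hi
      have := A_step s k 1 (2 * i) (by omega)
      rw [if_neg (by omega)] at this
      rw [this]; ring)
    (by
      intro i hi
      have := A_step s k 1 (2 * i + 1) (by omega)
      rw [if_pos (by omega)] at this
      have h2 := hs (2 * i + 1) (by omega)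
      have e : 2 * i + 2 = 2 * i + 1 + 1 := by ring
      rw [e, this]
      linarith)
    (by
      have e : 2 * ((k + 1) / 2) - 1 = k := by omega
      rw [e]
      have h1 := A_drop s k k le_rfl
      have h2 := A_antitone s k 0 k hs le_rfl
      linarith)
  rw [hM] at key
  rcases key with h | ⟨i, hi, h⟩
  · left
    rw [Finset.card_eq_zero, Finset.filter_eq_empty_iff]
    intro p hp
    exact h p (mem_range.mp hp)
  · right
    have : (range (k + 1)).filter (fun p => (A s k 1 p : ZMod N) = t) = {2 * i, 2 * i + 1} := by
      ext p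
      simp only [mem_filter, mem_range, mem_insert, mem_singleton]
      constructor
      · rintro ⟨h1, h2⟩; exact (h p h1).mp h2
      · intro h1
        have h2 : p < k + 1 := by omega
        exact ⟨h2, (h p h2).mpr h1⟩
    rw [this, Finset.card_pair (by omega)]

lemma A_link (s : ℕ → ℤ) (k : ℕ) (hk : k % 2 = 0) : A s k 0 0 = A s k 1 k := by
  unfold A
  apply Finset.sum_congr rfl
  intro i hi
  rw [mem_range] at hi
  by_cases c : i % 2 = 1
  · rw [if_pos (by omega), if_pos (by omega)]
  · rw [if_neg (by omega), if_neg (by omega)]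

/-- In the even case exactly `0` or `2` removals give the prescribed sum for one of the two
alternating classes. -/
lemma even_case (s : ℕ → ℤ) (k N : ℕ) (hk : k % 2 = 0) (hk0 : 2 ≤ k)
    (hs : ∀ i, i < k → s i < s (i + 1)) (hN : s k - s 0 < N) (t : ZMod N) :
    ((range (k + 1)).filter
      (fun p => (A s k 1 p : ZMod N) = t ∨ (A s k 0 p : ZMod N) = t)).card = 0 ∨
      ((range (k + 1)).filter
        (fun p => (A s k 1 p : ZMod N) = t ∨ (A s k 0 p : ZMod N) = t)).card = 2 := by
  let F : ℕ → ℤ := fun p => if p ≤ k then A s k 1 p else A s k 0 (p - (k + 1))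
  have F1 : ∀ p, p ≤ k → F p = A s k 1 p := fun p hp => if_pos hp
  have F2 : ∀ p, F (p + (k + 1)) = A s k 0 p := by
    intro p
    have : ¬ (p + (k + 1) ≤ k) := by omega
    simp only [F, if_neg this, Nat.add_sub_cancel]
  have key := chain_lemma F (k + 1) N t
    (by
      intro i hi
      rcases Nat.lt_or_ge (2 * i) k with h | h
      · rw [F1 _ (by omega), F1 _ (by omega)]
        have := A_step s k 1 (2 * i) (by omega)
        rw [if_neg (by omega)] at this
        rw [this]; ring
      rcases Nat.lt_or_ge k (2 * i) with h' | h'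
      · have e1 : 2 * i + 1 = (2 * i - (k + 1) + 1) + (k + 1) := by omega
        have e2 : 2 * i = (2 * i - (k + 1)) + (k + 1) := by omega
        rw [e1, F2]
        conv_rhs => rw [e2, F2]
        have := A_step s k 0 (2 * i - (k + 1)) (by omega)
        rw [if_neg (by omega)] at this
        rw [this]; ring
      · have e : 2 * i = k := by omega
        rw [e, F1 k le_rfl]
        have := F2 0
        rw [zero_add] at this
        rw [this]
        exact A_link s k hk)
    (by
      intro i hi
      rcases Nat.lt_or_ge (2 * i + 1) k with h | h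
      · rw [F1 _ (by omega), F1 _ (by omega)]
        have := A_step s k 1 (2 * i + 1) (by omega)
        rw [if_pos (by omega)] at this
        have h2 := hs (2 * i + 1) (by omega)
        have e : 2 * i + 2 = 2 * i + 1 + 1 := by ring
        rw [e, this]
        linarith
      · have e1 : 2 * i + 2 = (2 * i + 1 - (k + 1) + 1) + (k + 1) := by omega
        have e2 : 2 * i + 1 = (2 * i + 1 - (k + 1)) + (k + 1) := by omega
        rw [e1, F2]
        conv_rhs => rw [e2, F2]
        have := A_step s k 0 (2 * i + 1 - (k + 1)) (by omega)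
        rw [if_pos (by omega)] at this
        have h2 := hs (2 * i + 1 - (k + 1)) (by omega)
        rw [this]
        linarith)
    (by
      have e : 2 * (k + 1) - 1 = k + (k + 1) := by omega
      rw [e, F2, F1 0 (by omega)]
      have h1 := A_drop s k k le_rfl
      have h2 := A_link s k hk
      linarith)
  rcases key with h | ⟨i, hi, h⟩
  · left
    rw [Finset.card_eq_zero, Finset.filter_eq_empty_iff]
    intro p hp
    rw [mem_range] at hp
    rintro (h1 | h1)
    · exact h p (by omega) (by rw [F1 p (by omega)]; exact h1)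
    · exact h (p + (k + 1)) (by omega) (by rw [F2]; exact h1)
  · right
    have h1 : ∀ p, p < k + 1 → ((A s k 1 p : ZMod N) = t ↔ (p = 2 * i ∨ p = 2 * i + 1)) := by
      intro p hp
      rw [← F1 p (by omega)]
      exact h p (by omega)
    have h0 : ∀ p, p < k + 1 →
        ((A s k 0 p : ZMod N) = t ↔ (p + (k + 1) = 2 * i ∨ p + (k + 1) = 2 * i + 1)) := by
      intro p hp
      rw [← F2 p]
      exact h (p + (k + 1)) (by omega)
    have : (range (k + 1)).filter
        (fun p => (A s k 1 p : ZMod N) = t ∨ (A s k 0 p : ZMod N) = t)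
        = {(if 2 * i ≤ k then 2 * i else 2 * i - (k + 1)),
            (if 2 * i + 1 ≤ k then 2 * i + 1 else 2 * i + 1 - (k + 1))} := by
      ext p
      simp only [mem_filter, mem_range, mem_insert, mem_singleton]
      constructor
      · rintro ⟨g1, g2 | g2⟩
        · rw [h1 p g1] at g2
          split_ifs <;> omega
        · rw [h0 p g1] at g2
          split_ifs <;> omega
      · intro g
        have g1 : p < k + 1 := by split_ifs at g <;> omega
        refine ⟨g1, ?_⟩
        rw [h1 p g1, h0 p g1]
        split_ifs at g <;> omega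
    rw [this, Finset.card_pair]
    split_ifs <;> omega

/-! ### Part 3: the family on `Fin N` -/

/-- number of elements of `E` below `x` -/
def rk {N : ℕ} (E : Finset (Fin N)) (x : Fin N) : ℕ := (E.filter (fun y => y < x)).card

/-- Sum of the elements of `E` whose rank in `E` (counted from `0`) has the parity of `b`. -/
def W {N : ℕ} (b : ℕ) (E : Finset (Fin N)) : ℤ :=
  ∑ x ∈ E, if (rk E x + b) % 2 = 0 then ((x : ℕ) : ℤ) else 0

/-- The condition defining the edges on `Fin N`. -/
def Good {N : ℕ} (k : ℕ) (t : ZMod N) (E : Finset (Fin N)) : Prop :=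
  E.card = k ∧ ((W 1 E : ZMod N) = t ∨ (k % 2 = 0 ∧ (W 0 E : ZMod N) = t))

instance {N : ℕ} (k : ℕ) (t : ZMod N) (E : Finset (Fin N)) : Decidable (Good k t E) := by
  unfold Good; infer_instance

lemma rk_emb {N k : ℕ} (S : Finset (Fin N)) (h : S.card = k) (i : Fin k) :
    rk S (S.orderEmbOfFin h i) = i := by
  unfold rk
  have : S.filter (fun y => y < S.orderEmbOfFin h i)
      = (univ.filter (fun j : Fin k => j < i)).map (S.orderEmbOfFin h).toEmbedding := by
    ext y
    simp only [mem_filter, mem_map, mem_univ, true_and]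
    constructor
    · rintro ⟨hy, hlt⟩
      have : y ∈ Set.range (S.orderEmbOfFin h) := by
        rw [Finset.range_orderEmbOfFin]; exact hy
      obtain ⟨j, hj⟩ := this
      refine ⟨j, ?_, hj⟩
      rw [← hj] at hlt
      exact (S.orderEmbOfFin h).lt_iff_lt.mp hlt
    · rintro ⟨j, hj, rfl⟩
      exact ⟨Finset.orderEmbOfFin_mem S h j, (S.orderEmbOfFin h).lt_iff_lt.mpr hj⟩
  rw [this, Finset.card_map]
  have : (univ.filter (fun j : Fin k => j < i)) = Finset.Iio i := by ext j; simp
  rw [this, Fin.card_Iio]

lemma rk_erase {N : ℕ} (S : Finset (Fin N)) (a x : Fin N) (ha : a ∈ S) :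
    rk (S.erase a) x = rk S x - (if a < x then 1 else 0) := by
  unfold rk
  rw [Finset.filter_erase]
  by_cases h : a < x
  · rw [if_pos h, Finset.card_erase_of_mem (by simp [ha, h])]
  · rw [if_neg h, Finset.erase_eq_of_notMem (by simp [h])]
    simp

/-- the sequence attached to a set with `k + 1` elements -/
noncomputable def seq {N k : ℕ} (S : Finset (Fin N)) (h : S.card = k + 1) (i : ℕ) : ℤ :=
  if hi : i < k + 1 then ((S.orderEmbOfFin h ⟨i, hi⟩ : Fin N) : ℕ) else 0

lemma seq_lt {N k : ℕ} (S : Finset (Fin N)) (h : S.card = k + 1) (i : ℕ) (hi : i < k) :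
    seq S h i < seq S h (i + 1) := by
  unfold seq
  rw [dif_pos (by omega), dif_pos (by omega)]
  have : (S.orderEmbOfFin h ⟨i, by omega⟩) < (S.orderEmbOfFin h ⟨i + 1, by omega⟩) := by
    apply (S.orderEmbOfFin h).lt_iff_lt.mpr
    rw [Fin.mk_lt_mk]; omega
  exact_mod_cast this

lemma seq_range {N k : ℕ} (S : Finset (Fin N)) (h : S.card = k + 1) :
    seq S h k - seq S h 0 < N := by
  unfold seq
  rw [dif_pos (by omega), dif_pos (by omega)]
  have h1 := (S.orderEmbOfFin h ⟨k, by omega⟩).isLt
  omega

lemma W_erase {N k : ℕ} (S : Finset (Fin N)) (h : S.card = k + 1) (b : ℕ) (p : Fin (k + 1)) :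
    W b (S.erase (S.orderEmbOfFin h p)) = A (seq S h) k b p := by
  unfold W A
  have hmem : S.orderEmbOfFin h p ∈ S := Finset.orderEmbOfFin_mem S h p
  -- rewrite the left side as a sum over indices
  have h1 : ∑ x ∈ S.erase (S.orderEmbOfFin h p),
      (if (rk (S.erase (S.orderEmbOfFin h p)) x + b) % 2 = 0 then ((x : ℕ) : ℤ) else 0)
      = ∑ x ∈ S, (if x = S.orderEmbOfFin h p then 0 else
        (if (rk (S.erase (S.orderEmbOfFin h p)) x + b) % 2 = 0 then ((x : ℕ) : ℤ) else 0)) := by
    rw [← Finset.add_sum_erase S _ hmem, if_pos rfl, zero_add]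
    apply Finset.sum_congr rfl
    intro x hx
    rw [if_neg (Finset.ne_of_mem_erase hx)]
  have h2 : S = univ.map (S.orderEmbOfFin h).toEmbedding := by
    rw [← Finset.coe_inj]
    simp
  rw [h1]
  have h3 : ∀ g : Fin N → ℤ, ∑ x ∈ S, g x = ∑ i : Fin (k + 1), g (S.orderEmbOfFin h i) := by
    intro g
    conv_lhs => rw [h2]
    rw [Finset.sum_map]
    rfl
  rw [h3, ← Fin.sum_univ_eq_sum_range (fun i => if (i < (p : ℕ) ∧ (i + b) % 2 = 0) ∨
    ((p : ℕ) < i ∧ (i + b) % 2 = 1) then seq S h i else 0) (k + 1)]
  apply Finset.sum_congr rfl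
  intro i _
  rw [rk_erase S _ _ hmem, rk_emb]
  have hseq : seq S h i = ((S.orderEmbOfFin h i : Fin N) : ℕ) := by
    unfold seq
    rw [dif_pos i.isLt]
  rw [hseq]
  rcases lt_trichotomy i p with hip | hip | hip
  · have hlt := (S.orderEmbOfFin h).lt_iff_lt.mpr hip
    have hip' : (i : ℕ) < p := hip
    rw [if_neg (ne_of_lt hlt), if_neg (not_lt.mpr hlt.le)]
    by_cases c : ((i : ℕ) + b) % 2 = 0
    · rw [if_pos (by omega), if_pos (by omega)]
    · rw [if_neg (by omega), if_neg (by omega)]
  · subst hip
    rw [if_pos rfl, if_neg (by omega)]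
  · have hlt := (S.orderEmbOfFin h).lt_iff_lt.mpr hip
    have hip' : (p : ℕ) < i := hip
    rw [if_neg (ne_of_gt hlt), if_pos hlt]
    by_cases c : ((i : ℕ) + b) % 2 = 1
    · rw [if_pos (by omega), if_pos (by omega)]
    · rw [if_neg (by omega), if_neg (by omega)]

/-- Among the sets `S.erase a` with `a ∈ S`, exactly `0` or `2` are good. -/
lemma good_count {N k : ℕ} (hk : 1 ≤ k) (t : ZMod N) (S : Finset (Fin N)) (h : S.card = k + 1) :
    (S.filter (fun a => Good k t (S.erase a))).card = 0 ∨
      (S.filter (fun a => Good k t (S.erase a))).card = 2 := by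
  have h3 : (S.filter (fun a => Good k t (S.erase a))).card
      = ((range (k + 1)).filter (fun p => (A (seq S h) k 1 p : ZMod N) = t ∨
        (k % 2 = 0 ∧ (A (seq S h) k 0 p : ZMod N) = t))).card := by
    symm
    refine Finset.card_nbij (fun p => if hp : p < k + 1 then S.orderEmbOfFin h ⟨p, hp⟩ else
      S.orderEmbOfFin h ⟨0, by omega⟩) ?_ ?_ ?_
    · intro p hp
      simp only [coe_filter, mem_range, Set.mem_ofPred_eq] at hp ⊢
      rw [dif_pos hp.1]
      refine ⟨Finset.orderEmbOfFin_mem S h _, ?_, ?_⟩
      · rw [Finset.card_erase_of_mem (Finset.orderEmbOfFin_mem S h _), h]; omega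
      · rw [W_erase, W_erase]
        exact hp.2
    · intro p hp q hq hpq
      simp only [coe_filter, mem_range, Set.mem_ofPred_eq] at hp hq
      simp only [dif_pos hp.1, dif_pos hq.1] at hpq
      have := (S.orderEmbOfFin h).injective hpq
      simpa using this
    · intro a ha
      simp only [coe_filter, Set.mem_ofPred_eq] at ha
      have : a ∈ Set.range (S.orderEmbOfFin h) := by
        rw [Finset.range_orderEmbOfFin]; exact ha.1
      obtain ⟨j, hj⟩ := this
      refine ⟨j, ?_, ?_⟩
      · simp only [coe_filter, mem_range, Set.mem_ofPred_eq]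
        refine ⟨j.isLt, ?_⟩
        have := ha.2.2
        rw [← hj, W_erase, W_erase] at this
        exact this
      · simp only [dif_pos j.isLt]
        exact hj
  rw [h3]
  rcases Nat.mod_two_eq_zero_or_one k with hk2 | hk2
  · simp only [hk2, true_and]
    exact even_case (seq S h) k N hk2 (by omega) (seq_lt S h) (seq_range S h) t
  · simp only [hk2, one_ne_zero, false_and, or_false]
    exact odd_case (seq S h) k N hk2 (seq_lt S h) (seq_range S h) t

/-! ### Part 4: blowing up -/

/-- The family on `Fin n` obtained from a map `f : Fin n → Fin N` and a residue `t`. -/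
def fam {n N : ℕ} (k : ℕ) (f : Fin n → Fin N) (t : ZMod N) : Finset (Finset (Fin n)) :=
  (powersetCard k univ).filter (fun E => Good k t (E.image f))

lemma subset_count {n k : ℕ} (H : Finset (Finset (Fin n))) (hH : ∀ E ∈ H, E.card = k)
    (S : Finset (Fin n)) (hS : S.card = k + 1) :
    (H.filter (fun E => E ⊆ S)).card = (S.filter (fun a => S.erase a ∈ H)).card := by
  symm
  refine Finset.card_nbij (fun a => S.erase a) ?_ ?_ ?_
  · intro a ha
    simp only [coe_filter, Set.mem_ofPred_eq] at ha ⊢
    exact ⟨ha.2, Finset.erase_subset _ _⟩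
  · intro a ha b hb hab
    simp only [coe_filter, Set.mem_ofPred_eq] at ha hb hab
    by_contra hne
    have : a ∈ S.erase b := Finset.mem_erase.mpr ⟨hne, ha.1⟩
    rw [← hab] at this
    exact absurd this (Finset.notMem_erase a S)
  · intro E hE
    simp only [coe_filter, Set.mem_ofPred_eq] at hE
    have hc := hH E hE.1
    have h1 : (S \ E).card = 1 := by
      rw [Finset.card_sdiff_of_subset hE.2, hS, hc]; omega
    obtain ⟨a, ha⟩ := Finset.card_eq_one.mp h1
    have haS : a ∈ S \ E := by rw [ha]; simp
    rw [Finset.mem_sdiff] at haS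
    have hEe : S.erase a = E := by
      symm
      apply Finset.eq_of_subset_of_card_le
      · intro x hx
        exact Finset.mem_erase.mpr ⟨fun h => haS.2 (h ▸ hx), hE.2 hx⟩
      · rw [Finset.card_erase_of_mem haS.1, hS, hc]; omega
    refine ⟨a, ?_, hEe⟩
    simp only [coe_filter, Set.mem_ofPred_eq]
    exact ⟨haS.1, by rw [hEe]; exact hE.1⟩

lemma fam_admissible {n N : ℕ} (k : ℕ) (hk : 1 ≤ k) (f : Fin n → Fin N) (t : ZMod N) :
    Admissible n k (fam k f t) := by
  have hcard : ∀ E ∈ fam k f t, E.card = k := by
    intro E hE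
    unfold fam at hE
    rw [Finset.mem_filter, Finset.mem_powersetCard] at hE
    exact hE.1.2
  refine ⟨hcard, ?_⟩
  intro S hS
  rw [subset_count _ hcard S hS]
  have hmem : ∀ a ∈ S, (S.erase a ∈ fam k f t ↔ Good k t ((S.erase a).image f)) := by
    intro a ha
    unfold fam
    rw [Finset.mem_filter, Finset.mem_powersetCard, Finset.card_erase_of_mem ha, hS]
    simp
  rw [Finset.filter_congr hmem]
  by_cases hinj : Set.InjOn f S
  · -- `f` is injective on `S`
    have hT : (S.image f).card = k + 1 := by rw [Finset.card_image_of_injOn hinj, hS]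
    have key := good_count hk t (S.image f) hT
    have : (S.filter (fun a => Good k t ((S.erase a).image f))).card
        = ((S.image f).filter (fun b => Good k t ((S.image f).erase b))).card := by
      refine Finset.card_nbij f ?_ ?_ ?_
      · intro a ha
        simp only [coe_filter, Set.mem_ofPred_eq] at ha ⊢
        refine ⟨Finset.mem_image_of_mem f ha.1, ?_⟩
        have he : (S.image f).erase (f a) = (S.erase a).image f := by
          ext y
          simp only [mem_erase, mem_image]
          constructor
          · rintro ⟨h1, x, hx, rfl⟩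
            exact ⟨x, ⟨fun h => h1 (by rw [h]), hx⟩, rfl⟩
          · rintro ⟨x, ⟨h1, hx⟩, rfl⟩
            exact ⟨fun h => h1 (hinj hx ha.1 h), x, hx, rfl⟩
        rw [he]; exact ha.2
      · intro a ha b hb hab
        simp only [coe_filter, Set.mem_ofPred_eq] at ha hb
        exact hinj ha.1 hb.1 hab
      · intro y hy
        simp only [coe_filter, Set.mem_ofPred_eq] at hy
        obtain ⟨x, hx, rfl⟩ := Finset.mem_image.mp hy.1
        refine ⟨x, ?_, rfl⟩
        simp only [coe_filter, Set.mem_ofPred_eq]
        refine ⟨hx, ?_⟩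
        have he : (S.image f).erase (f x) = (S.erase x).image f := by
          ext y
          simp only [mem_erase, mem_image]
          constructor
          · rintro ⟨h1, z, hz, rfl⟩
            exact ⟨z, ⟨fun h => h1 (by rw [h]), hz⟩, rfl⟩
          · rintro ⟨z, ⟨h1, hz⟩, rfl⟩
            exact ⟨fun h => h1 (hinj hz hx h), z, hz, rfl⟩
        rw [← he]; exact hy.2
    rw [this]
    exact key
  · -- two elements of `S` have the same image
    have : ∃ a ∈ S, ∃ b ∈ S, a ≠ b ∧ f a = f b := by
      unfold Set.InjOn at hinj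
      push Not at hinj
      obtain ⟨a, ha, b, hb, hab, hne⟩ := hinj
      exact ⟨a, ha, b, hb, hne, hab⟩
    obtain ⟨a, ha, b, hb, hne, hab⟩ := this
    have himg : ∀ x y, x ∈ S → y ∈ S → x ≠ y → f x = f y → (S.erase x).image f = S.image f := by
      intro x y hx hy hxy hf
      ext z
      simp only [mem_image, mem_erase]
      constructor
      · rintro ⟨w, ⟨_, hw⟩, rfl⟩; exact ⟨w, hw, rfl⟩
      · rintro ⟨w, hw, rfl⟩
        by_cases hwx : w = x
        · exact ⟨y, ⟨Ne.symm hxy, hy⟩, by rw [hwx, hf]⟩
        · exact ⟨w, ⟨hwx, hw⟩, rfl⟩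
    have hother : ∀ x ∈ S, x ≠ a → x ≠ b → ¬ Good k t ((S.erase x).image f) := by
      intro x hx hxa hxb hg
      have h1 : ((S.erase x).image f).card = k := hg.1
      have h2 : ((S.erase x).erase a).image f = (S.erase x).image f := by
        ext z
        simp only [mem_image, mem_erase]
        constructor
        · rintro ⟨w, ⟨_, hw⟩, rfl⟩; exact ⟨w, hw, rfl⟩
        · rintro ⟨w, hw, rfl⟩
          by_cases hwa : w = a
          · exact ⟨b, ⟨Ne.symm hne, Ne.symm hxb, hb⟩, by rw [hwa, hab]⟩
          · exact ⟨w, ⟨hwa, hw⟩, rfl⟩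
      have h3 : (((S.erase x).erase a).image f).card ≤ k - 1 := by
        refine Finset.card_image_le.trans ?_
        rw [Finset.card_erase_of_mem (Finset.mem_erase.mpr ⟨Ne.symm hxa, ha⟩),
          Finset.card_erase_of_mem hx, hS]
        omega
      rw [h2, h1] at h3
      omega
    by_cases hg : Good k t (S.image f)
    · right
      have : S.filter (fun a => Good k t ((S.erase a).image f)) = {a, b} := by
        ext x
        simp only [mem_filter, mem_insert, mem_singleton]
        constructor
        · rintro ⟨hx, hgx⟩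
          by_contra hc
          push Not at hc
          exact hother x hx hc.1 hc.2 hgx
        · rintro (rfl | rfl)
          · exact ⟨ha, by rw [himg x b ha hb hne hab]; exact hg⟩
          · exact ⟨hb, by rw [himg x a hb ha (Ne.symm hne) hab.symm]; exact hg⟩
      rw [this, Finset.card_pair hne]
    · left
      rw [Finset.card_eq_zero, Finset.filter_eq_empty_iff]
      intro x hx hgx
      by_cases hxa : x = a
      · subst hxa
        rw [himg x b ha hb hne hab] at hgx
        exact hg hgx
      by_cases hxb : x = b
      · subst hxb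
        rw [himg x a hb ha (Ne.symm hne) hab.symm] at hgx
        exact hg hgx
      · exact hother x hx hxa hxb hgx

/-! ### Part 5: averaging -/

lemma alt_sum (s : ℕ → ℤ) (k : ℕ) (hs : ∀ i, i + 1 < k → s i < s (i + 1)) (j : ℕ) :
    1 ≤ j → 2 * j ≤ k → 0 < ∑ i ∈ range (2 * j), (if i % 2 = 1 then s i else - s i) ∧
      ∑ i ∈ range (2 * j), (if i % 2 = 1 then s i else - s i) ≤ s (2 * j - 1) - s 0 := by
  induction j with
  | zero => intro h; omega
  | succ j ih =>
    intro _ h2
    have e : 2 * (j + 1) = 2 * j + 1 + 1 := by ring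
    rw [e, Finset.sum_range_succ, Finset.sum_range_succ, if_neg (by omega), if_pos (by omega)]
    have h3 := hs (2 * j) (by omega)
    have e2 : 2 * j + 1 + 1 - 1 = 2 * j + 1 := by omega
    rw [e2]
    rcases Nat.eq_zero_or_pos j with hj | hj
    · subst hj
      simp only [mul_zero, range_zero, sum_empty, zero_add] at *
      constructor <;> linarith
    · obtain ⟨h4, h5⟩ := ih hj (by omega)
      have h6 := hs (2 * j - 1) (by omega)
      have e3 : 2 * j - 1 + 1 = 2 * j := by omega
      rw [e3] at h6
      constructor <;> linarith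

/-- The number of residues `t` for which a `k`-subset of `Fin N` is good. -/
lemma residues {N : ℕ} [NeZero N] (k : ℕ) (hk : 2 ≤ k) (E : Finset (Fin N)) (hE : E.card = k) :
    (if k % 2 = 0 then 2 else 1) ≤ ((univ : Finset (ZMod N)).filter (fun t => Good k t E)).card := by
  split_ifs with h
  · have hne : (W 1 E : ZMod N) ≠ (W 0 E : ZMod N) := by
      intro heq
      have hdvd := (ZMod.intCast_eq_intCast_iff_dvd_sub _ _ _).mp heq.symm
      have hE' : E.card = (k - 1) + 1 := by omega
      have h2 : E = univ.map (E.orderEmbOfFin hE').toEmbedding := by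
        rw [← Finset.coe_inj]
        simp
      have h3 : W 1 E - W 0 E
          = ∑ i ∈ range (k - 1 + 1), (if i % 2 = 1 then seq E hE' i else - seq E hE' i) := by
        unfold W
        rw [← Finset.sum_sub_distrib]
        have h4 : ∀ g : Fin N → ℤ, ∑ x ∈ E, g x
            = ∑ i : Fin (k - 1 + 1), g (E.orderEmbOfFin hE' i) := by
          intro g
          conv_lhs => rw [h2]
          rw [Finset.sum_map]
          rfl
        rw [h4, ← Fin.sum_univ_eq_sum_range
          (fun i => (if i % 2 = 1 then seq E hE' i else - seq E hE' i)) (k - 1 + 1)]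
        apply Finset.sum_congr rfl
        intro i _
        rw [rk_emb]
        have hseq : seq E hE' i = ((E.orderEmbOfFin hE' i : Fin N) : ℕ) := by
          unfold seq
          rw [dif_pos i.isLt]
        rw [hseq]
        by_cases c : (i : ℕ) % 2 = 1
        · rw [if_pos (by omega), if_neg (by omega), if_pos c]; ring
        · rw [if_neg (by omega), if_pos (by omega), if_neg c]; ring
      have h5 := alt_sum (seq E hE') k (fun i hi => seq_lt E hE' i (by omega)) (k / 2) (by omega)
        (by omega)
      have e : 2 * (k / 2) = k - 1 + 1 := by omega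
      rw [e, ← h3] at h5
      have h6 := seq_range E hE'
      have e2 : k - 1 + 1 - 1 = k - 1 := by omega
      rw [e2] at h5
      have h7 := Int.eq_zero_of_abs_lt_dvd hdvd (by rw [abs_lt]; constructor <;> linarith)
      linarith
    have hsub : ({(W 1 E : ZMod N), (W 0 E : ZMod N)} : Finset (ZMod N))
        ⊆ (univ : Finset (ZMod N)).filter (fun t => Good k t E) := by
      intro t ht
      simp only [mem_insert, mem_singleton] at ht
      rw [Finset.mem_filter]
      refine ⟨Finset.mem_univ _, hE, ?_⟩
      rcases ht with rfl | rfl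
      · exact Or.inl rfl
      · exact Or.inr ⟨h, rfl⟩
    have := Finset.card_le_card hsub
    rwa [Finset.card_pair hne] at this
  · have : (W 1 E : ZMod N) ∈ (univ : Finset (ZMod N)).filter (fun t => Good k t E) := by
      rw [Finset.mem_filter]
      exact ⟨Finset.mem_univ _, hE, Or.inl rfl⟩
    exact Finset.card_pos.mpr ⟨_, this⟩

lemma card_eq_at {n N : ℕ} (a b : Fin n) (hab : a ≠ b) :
    ((univ : Finset (Fin n → Fin N)).filter (fun f => f a = f b)).card * N = N ^ n := by
  have h : Fintype.card ({f : Fin n → Fin N // f a = f b} × Fin N)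
      = Fintype.card (Fin n → Fin N) := by
    apply Fintype.card_congr
    refine ⟨fun p => Function.update p.1.1 b p.2,
      fun g => (⟨Function.update g b (g a), ?_⟩, g b), ?_, ?_⟩
    · rw [Function.update_of_ne hab, Function.update_self]
    · rintro ⟨⟨f, hf⟩, c⟩
      simp only [Function.update_self, Prod.mk.injEq, Subtype.mk.injEq, and_true]
      rw [Function.update_of_ne hab, Function.update_idem, hf, Function.update_eq_self]
    · intro g
      simp only [Function.update_idem, Function.update_eq_self]
  rw [Fintype.card_prod, Fintype.card_subtype, Fintype.card_fin, Fintype.card_fun,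
    Fintype.card_fin, Fintype.card_fin] at h
  exact h

lemma inj_count {n N : ℕ} (k : ℕ) (hN : N = k * (k - 1)) (hk : 2 ≤ k) (E : Finset (Fin n))
    (hE : E.card = k) :
    N ^ n ≤ 2 * ((univ : Finset (Fin n → Fin N)).filter (fun f => (E.image f).card = k)).card := by
  have hNpos : 0 < N := by
    rw [hN]; exact Nat.mul_pos (by omega) (by omega)
  have hsub : (univ : Finset (Fin n → Fin N)).filter (fun f => ¬ (E.image f).card = k)
      ⊆ (powersetCard 2 E).biUnion (fun P => (univ : Finset (Fin n → Fin N)).filter
        (fun f => ∀ x ∈ P, ∀ y ∈ P, f x = f y)) := by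
    intro f hf
    rw [Finset.mem_filter] at hf
    have h1 : ¬ Set.InjOn f E := fun h => hf.2 (by rw [Finset.card_image_of_injOn h, hE])
    unfold Set.InjOn at h1
    push Not at h1
    obtain ⟨a, ha, b, hb, hab, hne⟩ := h1
    rw [Finset.mem_biUnion]
    refine ⟨{a, b}, ?_, ?_⟩
    · rw [Finset.mem_powersetCard]
      refine ⟨?_, Finset.card_pair hne⟩
      intro x hx
      simp only [mem_insert, mem_singleton] at hx
      rcases hx with rfl | rfl
      · exact ha
      · exact hb
    · rw [Finset.mem_filter]
      refine ⟨Finset.mem_univ _, ?_⟩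
      intro x hx y hy
      simp only [mem_insert, mem_singleton] at hx hy
      rcases hx with rfl | rfl <;> rcases hy with rfl | rfl
      · rfl
      · exact hab
      · exact hab.symm
      · rfl
  have hcard : ∀ P ∈ powersetCard 2 E, ((univ : Finset (Fin n → Fin N)).filter
      (fun f => ∀ x ∈ P, ∀ y ∈ P, f x = f y)).card * N ≤ N ^ n := by
    intro P hP
    rw [Finset.mem_powersetCard] at hP
    obtain ⟨a, b, hab, rfl⟩ := Finset.card_eq_two.mp hP.2
    rw [← card_eq_at (N := N) a b hab]
    apply Nat.mul_le_mul_right
    apply Finset.card_le_card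
    intro f hf
    rw [Finset.mem_filter] at hf ⊢
    exact ⟨Finset.mem_univ _, hf.2 a (by simp) b (by simp)⟩
  have h1 : ((univ : Finset (Fin n → Fin N)).filter (fun f => ¬ (E.image f).card = k)).card * N
      ≤ (k.choose 2) * N ^ n := by
    calc _ ≤ (∑ P ∈ powersetCard 2 E, ((univ : Finset (Fin n → Fin N)).filter
        (fun f => ∀ x ∈ P, ∀ y ∈ P, f x = f y)).card) * N :=
          Nat.mul_le_mul_right _ ((Finset.card_le_card hsub).trans Finset.card_biUnion_le)
      _ = ∑ P ∈ powersetCard 2 E, ((univ : Finset (Fin n → Fin N)).filter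
        (fun f => ∀ x ∈ P, ∀ y ∈ P, f x = f y)).card * N := Finset.sum_mul _ _ _
      _ ≤ ∑ P ∈ powersetCard 2 E, N ^ n := Finset.sum_le_sum hcard
      _ = (k.choose 2) * N ^ n := by
          rw [Finset.sum_const, Finset.card_powersetCard, hE, smul_eq_mul]
  have h2 : 2 * k.choose 2 = N := by
    rw [hN, Nat.choose_two_right]
    have : 2 ∣ k * (k - 1) := (Nat.even_mul_pred_self k).two_dvd
    omega
  have h3 := Finset.card_filter_add_card_filter_not (s := (univ : Finset (Fin n → Fin N)))
    (fun f => (E.image f).card = k)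
  rw [Finset.card_univ, Fintype.card_fun, Fintype.card_fin, Fintype.card_fin] at h3
  -- conclude
  have h4 : 2 * ((univ : Finset (Fin n → Fin N)).filter (fun f => ¬ (E.image f).card = k)).card
      ≤ N ^ n := by
    have h5 : (2 * ((univ : Finset (Fin n → Fin N)).filter
        (fun f => ¬ (E.image f).card = k)).card) * N ≤ N ^ n * N := by
      calc _ = 2 * (((univ : Finset (Fin n → Fin N)).filter
        (fun f => ¬ (E.image f).card = k)).card * N) := by ring
        _ ≤ 2 * ((k.choose 2) * N ^ n) := Nat.mul_le_mul_left _ h1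
        _ = (2 * k.choose 2) * N ^ n := by ring
        _ = N ^ n * N := by rw [h2]; ring
    exact Nat.le_of_mul_le_mul_right h5 hNpos
  omega

lemma card_le_m {n k : ℕ} (H : Finset (Finset (Fin n))) (hH : Admissible n k H) :
    H.card ≤ m n k := by
  unfold m
  apply le_csSup
  · refine ⟨(univ : Finset (Finset (Fin n))).card, ?_⟩
    rintro h ⟨H', _, rfl⟩
    exact Finset.card_le_card (Finset.subset_univ _)
  · exact ⟨H, hH, rfl⟩

lemma main_bound (n k : ℕ) (hk : 2 ≤ k) :
    (if k % 2 = 0 then 2 else 1) * n.choose k ≤ 2 * (k * (k - 1)) * m n k := by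
  obtain ⟨N, hN⟩ : ∃ N, N = k * (k - 1) := ⟨_, rfl⟩
  have hNpos : 0 < N := by
    rw [hN]; exact Nat.mul_pos (by omega) (by omega)
  have : NeZero N := ⟨by omega⟩
  set c := (if k % 2 = 0 then 2 else 1) with hc
  -- the total number of triples `(f, t, E)`
  have hup : ∑ f : Fin n → Fin N, ∑ t : ZMod N, (fam k f t).card ≤ N ^ n * (N * m n k) := by
    calc ∑ f : Fin n → Fin N, ∑ t : ZMod N, (fam k f t).card
        ≤ ∑ f : Fin n → Fin N, ∑ t : ZMod N, m n k :=
          Finset.sum_le_sum fun f _ => Finset.sum_le_sum fun t _ =>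
            card_le_m _ (fam_admissible k (by omega) f t)
      _ = N ^ n * (N * m n k) := by
          simp [ZMod.card]
  have hlow : ∑ E ∈ powersetCard k (univ : Finset (Fin n)),
      c * ((univ : Finset (Fin n → Fin N)).filter (fun f => (E.image f).card = k)).card
      ≤ ∑ f : Fin n → Fin N, ∑ t : ZMod N, (fam k f t).card := by
    have h1 : ∑ f : Fin n → Fin N, ∑ t : ZMod N, (fam k f t).card
        = ∑ E ∈ powersetCard k (univ : Finset (Fin n)), ∑ f : Fin n → Fin N,
          ((univ : Finset (ZMod N)).filter (fun t => Good k t (E.image f))).card := by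
      unfold fam
      simp only [Finset.card_filter]
      rw [Finset.sum_congr rfl (fun f _ => Finset.sum_comm), Finset.sum_comm]
    rw [h1]
    apply Finset.sum_le_sum
    intro E hE
    rw [Finset.mem_powersetCard] at hE
    rw [mul_comm, ← smul_eq_mul, ← Finset.sum_const, ← Finset.sum_filter_add_sum_filter_not
      (univ : Finset (Fin n → Fin N)) (fun f => (E.image f).card = k)]
    refine le_trans ?_ (Nat.le_add_right _ _)
    apply Finset.sum_le_sum
    intro f hf
    rw [Finset.mem_filter] at hf
    exact residues k hk (E.image f) hf.2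
  have hmid : (c * n.choose k) * N ^ n ≤ 2 * (N ^ n * (N * m n k)) := by
    calc (c * n.choose k) * N ^ n
        = ∑ E ∈ powersetCard k (univ : Finset (Fin n)), c * N ^ n := by
          rw [Finset.sum_const, Finset.card_powersetCard, Finset.card_univ, Fintype.card_fin,
            smul_eq_mul]
          ring
      _ ≤ ∑ E ∈ powersetCard k (univ : Finset (Fin n)), c * (2 *
          ((univ : Finset (Fin n → Fin N)).filter (fun f => (E.image f).card = k)).card) := by
          apply Finset.sum_le_sum
          intro E hE
          rw [Finset.mem_powersetCard] at hE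
          exact Nat.mul_le_mul_left _ (inj_count k hN hk E hE.2)
      _ = 2 * ∑ E ∈ powersetCard k (univ : Finset (Fin n)),
          c * ((univ : Finset (Fin n → Fin N)).filter (fun f => (E.image f).card = k)).card := by
          rw [Finset.mul_sum]
          apply Finset.sum_congr rfl
          intro E _
          ring
      _ ≤ 2 * (N ^ n * (N * m n k)) := Nat.mul_le_mul_left _ (hlow.trans hup)
  have hpow : 0 < N ^ n := Nat.pow_pos hNpos
  have : (c * n.choose k) * N ^ n ≤ (2 * (N * m n k)) * N ^ n := by
    calc _ ≤ _ := hmid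
      _ = _ := by ring
  have := Nat.le_of_mul_le_mul_right this hpow
  rw [← hN]
  linarith

/-- For all `n` and all `k ≥ 2`, a maximum admissible family contains at least a fraction
`1 / (k (k - 1))` of all `k`-sets if `k` is even, and at least a fraction `1 / (2 k (k - 1))` if
`k` is odd. -/
theorem result (n k : ℕ) (hk : 2 ≤ k) :
    (Even k → n.choose k ≤ k * (k - 1) * m n k) ∧
      (Odd k → n.choose k ≤ 2 * (k * (k - 1)) * m n k) := by
  have h := main_bound n k hk
  constructor
  · intro he
    rw [if_pos (Nat.even_iff.mp he)] at h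
    have : 2 * n.choose k ≤ 2 * (k * (k - 1) * m n k) := by
      calc _ ≤ _ := h
        _ = _ := by ring
    omega
  · intro ho
    rw [if_neg (by rw [Nat.odd_iff.mp ho]; norm_num), one_mul] at h
    exact h

end Pool.Agent.Results.MP_07f90a_co.PolynomialLowerBound
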