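import Mathlib
import Pool.Agent.H62.ZS.Base

/-!
# MP_07f90a_co: `m(n,k)` is asymptotically `2 C(n,k) / (k+1)` when `n - k = o(k)`

The double counting bound `m(n,k) ≤ 2 C(n,k) / (k+1)` is asymptotically attained whenever `n - k` is
small compared with `k`: we prove `m(n,k) ≥ 2 C(n,k) / (2n - k - 1)` for all `2 ≤ k < n`, and even
`m(n,k) ≥ 2 C(n,k) / n` when `k` is even.

Construction: a `k`-subset `E` of `{0, …, n-1}`, `k` odd, is an edge when the sum of its elements in
even position is a prescribed residue modulo `M = n - (k+1)/2`.  For a `(k+1)`-set `x_1 < … < x_{k+1}`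
the removal of `x_{2p-1}` or of `x_{2p}` gives the same sum, and the next pair of removals gives a sum
smaller by `x_{2p+1} - x_{2p}`; the total drop is less than `M`.  For even `k` both alternating classes
are used, modulo `n`.
-/

open Finset Filter Topology

namespace Pool.Agent.Results.MP_07f90a_co.SmallCodimension

open Pool.Agent.H62.ZS

/-- A family `H` of `k`-element subsets of an `n`-element set is admissible if every
`(k+1)`-element subset contains exactly `0` or exactly `2` members of `H`. -/
def Admissible (n k : ℕ) (H : Finset (Finset (Fin n))) : Prop :=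
  (∀ E ∈ H, E.card = k) ∧
    ∀ S : Finset (Fin n), S.card = k + 1 →
      (H.filter (fun E => E ⊆ S)).card = 0 ∨ (H.filter (fun E => E ⊆ S)).card = 2

/-- `m n k` is the largest size of an admissible `k`-uniform family on `n` points. -/
noncomputable def m (n k : ℕ) : ℕ :=
  sSup {h : ℕ | ∃ H : Finset (Finset (Fin n)), Admissible n k H ∧ H.card = h}

lemma le_m {n k : ℕ} {H : Finset (Finset (Fin n))} (hH : Admissible n k H) : H.card ≤ m n k := by
  refine le_csSup ⟨Fintype.card (Finset (Fin n)), ?_⟩ ⟨H, hH, rfl⟩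
  rintro _ ⟨H', -, rfl⟩
  exact Finset.card_le_univ _

lemma exists_m (n k : ℕ) : ∃ H : Finset (Finset (Fin n)), Admissible n k H ∧ H.card = m n k := by
  have hne : {h : ℕ | ∃ H : Finset (Finset (Fin n)), Admissible n k H ∧ H.card = h}.Nonempty := by
    refine ⟨0, ∅, ⟨by simp, fun S _ => Or.inl (by simp)⟩, rfl⟩
  have hbdd : BddAbove {h : ℕ | ∃ H : Finset (Finset (Fin n)), Admissible n k H ∧ H.card = h} := by
    refine ⟨Fintype.card (Finset (Fin n)), ?_⟩
    rintro _ ⟨H', -, rfl⟩
    exact Finset.card_le_univ _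
  exact Nat.sSup_mem hne hbdd

/-- The family attached to a residue. -/
def fam (n k M : ℕ) (t : ZMod M) : Finset (Finset (Fin n)) :=
  (powersetCard k univ).filter (fun E => Good k M t E)

lemma fam_admissible {n k M : ℕ} (hk : 1 ≤ k) (hM0 : k % 2 = 0 → n ≤ M)
    (hM1 : k % 2 = 1 → n ≤ M + (k + 1) / 2) (t : ZMod M) : Admissible n k (fam n k M t) := by
  have hcard : ∀ E ∈ fam n k M t, E.card = k := by
    intro E hE
    unfold fam at hE
    rw [Finset.mem_filter, Finset.mem_powersetCard] at hE
    exact hE.1.2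
  refine ⟨hcard, ?_⟩
  intro S hS
  rw [subset_count _ hcard S hS]
  have hmem : ∀ a ∈ S, (S.erase a ∈ fam n k M t ↔ Good k M t (S.erase a)) := by
    intro a ha
    unfold fam
    rw [Finset.mem_filter, Finset.mem_powersetCard, Finset.card_erase_of_mem ha, hS]
    simp
  rw [Finset.filter_congr hmem]
  exact good_count hk hM0 hM1 t S hS

lemma lower {n k M : ℕ} (hM : 0 < M) (hk : 2 ≤ k) (hM0 : k % 2 = 0 → n ≤ M)
    (hM1 : k % 2 = 1 → n ≤ M + (k + 1) / 2) :
    (if k % 2 = 0 then 2 else 1) * n.choose k ≤ M * m n k := by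
  have : NeZero M := ⟨by omega⟩
  have h1 : ∑ t : ZMod M, (fam n k M t).card ≤ M * m n k := by
    calc ∑ t : ZMod M, (fam n k M t).card ≤ ∑ _t : ZMod M, m n k :=
          Finset.sum_le_sum (fun t _ => le_m (fam_admissible (by omega) hM0 hM1 t))
      _ = M * m n k := by
          rw [Finset.sum_const, Finset.card_univ, ZMod.card, smul_eq_mul]
  refine le_trans ?_ h1
  unfold fam
  simp only [Finset.card_filter]
  rw [Finset.sum_comm]
  have h2 : ∑ E ∈ powersetCard k (univ : Finset (Fin n)), (if k % 2 = 0 then 2 else 1)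
      ≤ ∑ E ∈ powersetCard k (univ : Finset (Fin n)),
        ∑ t : ZMod M, (if Good k M t E then 1 else 0) := by
    apply Finset.sum_le_sum
    intro E hE
    rw [Finset.mem_powersetCard] at hE
    rw [← Finset.card_filter]
    exact residues k hk hM0 E hE.2
  refine le_trans ?_ h2
  rw [Finset.sum_const, Finset.card_powersetCard, Finset.card_univ, Fintype.card_fin, smul_eq_mul,
    mul_comm]

lemma upper {n k : ℕ} (hn : k < n) : (k + 1) * m n k ≤ 2 * n.choose k := by
  obtain ⟨H, hH, hc⟩ := exists_m n k
  rw [← hc]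
  have h1 : ∑ S ∈ powersetCard (k + 1) (univ : Finset (Fin n)), (H.filter (fun E => E ⊆ S)).card
      ≤ 2 * n.choose (k + 1) := by
    calc _ ≤ ∑ S ∈ powersetCard (k + 1) (univ : Finset (Fin n)), 2 := by
          apply Finset.sum_le_sum
          intro S hS
          rw [Finset.mem_powersetCard] at hS
          rcases hH.2 S hS.2 with h | h <;> omega
      _ = 2 * n.choose (k + 1) := by
          rw [Finset.sum_const, Finset.card_powersetCard, Finset.card_univ, Fintype.card_fin,
            smul_eq_mul, mul_comm]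
  have h2 : ∑ S ∈ powersetCard (k + 1) (univ : Finset (Fin n)), (H.filter (fun E => E ⊆ S)).card
      = H.card * (n - k) := by
    simp only [Finset.card_filter]
    rw [Finset.sum_comm]
    have h3 : ∀ E ∈ H, ∑ S ∈ powersetCard (k + 1) (univ : Finset (Fin n)), (if E ⊆ S then 1 else 0)
        = n - k := by
      intro E hE
      have hEk := hH.1 E hE
      rw [← Finset.card_filter]
      have h4 : (powersetCard (k + 1) (univ : Finset (Fin n))).filter (fun S => E ⊆ S)
          = (univ \ E).image (fun a => insert a E) := by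
        ext S
        simp only [mem_filter, mem_powersetCard, subset_univ, true_and, mem_image]
        constructor
        · rintro ⟨h5, h6⟩
          have h7 : (S \ E).card = 1 := by
            rw [Finset.card_sdiff_of_subset h6, h5, hEk]; omega
          obtain ⟨a, ha⟩ := Finset.card_eq_one.mp h7
          have haS : a ∈ S \ E := by rw [ha]; simp
          refine ⟨a, Finset.mem_sdiff.mpr ⟨Finset.mem_univ a, (Finset.mem_sdiff.mp haS).2⟩, ?_⟩
          rw [Finset.insert_eq, ← ha, Finset.sdiff_union_of_subset h6]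
        · rintro ⟨a, ha, rfl⟩
          exact ⟨by rw [Finset.card_insert_of_notMem (Finset.mem_sdiff.mp ha).2, hEk],
            Finset.subset_insert _ _⟩
      rw [h4, Finset.card_image_of_injOn, Finset.card_sdiff_of_subset (Finset.subset_univ _),
        Finset.card_univ, Fintype.card_fin, hEk]
      intro a ha b hb hab
      simp only [coe_sdiff, coe_univ, Set.mem_sdiff, Set.mem_univ, mem_coe, true_and] at ha hb
      have h8 : a ∈ insert b E := by
        have : a ∈ insert a E := Finset.mem_insert_self a E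
        simpa only [hab] using this
      rcases Finset.mem_insert.mp h8 with h9 | h9
      · exact h9
      · exact absurd h9 ha
    rw [Finset.sum_congr rfl h3, Finset.sum_const, smul_eq_mul]
  rw [h2] at h1
  have h5 : n.choose (k + 1) * (k + 1) = n.choose k * (n - k) := Nat.choose_succ_right_eq n k
  have h6 : ((k + 1) * H.card) * (n - k) ≤ (2 * n.choose k) * (n - k) := by
    calc ((k + 1) * H.card) * (n - k) = (k + 1) * (H.card * (n - k)) := by ring
      _ ≤ (k + 1) * (2 * n.choose (k + 1)) := Nat.mul_le_mul_left _ h1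
      _ = 2 * (n.choose (k + 1) * (k + 1)) := by ring
      _ = 2 * (n.choose k * (n - k)) := by rw [h5]
      _ = _ := by ring
  exact Nat.le_of_mul_le_mul_right h6 (by omega)

lemma lower_even {n k : ℕ} (hk : 2 ≤ k) (hn : k < n) (he : Even k) :
    2 * n.choose k ≤ n * m n k := by
  have h := lower (n := n) (k := k) (M := n) (by omega) hk (fun _ => le_rfl) (fun _ => by omega)
  rwa [if_pos (Nat.even_iff.mp he)] at h

lemma lower_all {n k : ℕ} (hk : 2 ≤ k) (hn : k < n) :
    2 * n.choose k ≤ (2 * n - k - 1) * m n k := by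
  rcases Nat.even_or_odd k with he | ho
  · exact (lower_even hk hn he).trans (Nat.mul_le_mul_right _ (by omega))
  · have hk1 := Nat.odd_iff.mp ho
    have h := lower (n := n) (k := k) (M := n - (k + 1) / 2) (by omega) hk (fun h => by omega)
      (fun _ => by omega)
    rw [if_neg (by omega), one_mul] at h
    have e : 2 * n - k - 1 = 2 * (n - (k + 1) / 2) := by omega
    rw [e, mul_assoc]
    exact Nat.mul_le_mul_left _ h

lemma lower_real {n k : ℕ} (hk : 2 ≤ k) (hn : k < n) :
    (2 * n.choose k : ℝ) / (2 * n - k - 1) ≤ m n k := by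
  have h := lower_all hk hn
  have hpos : (0 : ℝ) < 2 * n - k - 1 := by
    have h1 : ((k : ℝ) + 1) ≤ n := by exact_mod_cast hn
    have h2 : (2 : ℝ) ≤ k := by exact_mod_cast hk
    linarith
  rw [div_le_iff₀ hpos]
  have e : ((2 * n - k - 1 : ℕ) : ℝ) = 2 * n - k - 1 := by
    rw [Nat.cast_sub (by omega), Nat.cast_sub (by omega)]
    push_cast
    ring
  rw [← e, mul_comm (m n k : ℝ)]
  exact_mod_cast h

lemma upper_real {n k : ℕ} (hn : k < n) : (m n k : ℝ) ≤ 2 * n.choose k / (k + 1) := by
  rw [le_div_iff₀ (by positivity), mul_comm]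
  exact_mod_cast upper hn

/-- **Theorem.** For `2 ≤ k < n`,
`2 C(n,k) / (2n - k - 1) ≤ m(n,k) ≤ 2 C(n,k) / (k + 1)`,
the lower bound being `2 C(n,k) / n` when `k` is even.  Consequently `m(n,k)` is asymptotically equal
to `2 C(n,k) / (k + 1)` whenever `n - k = o(k)`. -/
theorem result :
    (∀ n k : ℕ, 2 ≤ k → k < n →
      (2 * n.choose k : ℝ) / (2 * n - k - 1) ≤ m n k ∧
      (Even k → (2 * n.choose k : ℝ) / n ≤ m n k) ∧
      (m n k : ℝ) ≤ 2 * n.choose k / (k + 1)) ∧
    (∀ N K : ℕ → ℕ, (∀ j, 2 ≤ K j ∧ K j < N j) →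
      Tendsto (fun j => ((N j : ℝ) - K j) / K j) atTop (𝓝 0) →
      Tendsto (fun j => (m (N j) (K j) : ℝ) / (2 * (N j).choose (K j) / (K j + 1)))
        atTop (𝓝 1)) := by
  refine ⟨fun n k hk hn => ⟨lower_real hk hn, fun he => ?_, upper_real hn⟩, ?_⟩
  · have hn' : (0 : ℝ) < n := by exact_mod_cast (by omega : 0 < n)
    rw [div_le_iff₀ hn', mul_comm (m n k : ℝ)]
    exact_mod_cast lower_even hk hn he
  · intro N K hNK hlim
    have hlow : Tendsto (fun j => (1 : ℝ) / (1 + 2 * (((N j : ℝ) - K j) / K j))) atTop (𝓝 1) := by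
      have h1 : Tendsto (fun j => (1 : ℝ) + 2 * (((N j : ℝ) - K j) / K j)) atTop
          (𝓝 (1 + 2 * 0)) := (hlim.const_mul 2).const_add 1
      have h2 := h1.inv₀ (by norm_num)
      simpa [one_div] using h2
    refine tendsto_of_tendsto_of_tendsto_of_le_of_le hlow tendsto_const_nhds ?_ ?_
    · intro j
      obtain ⟨hk, hn⟩ := hNK j
      have hlr := lower_real hk hn
      have hc : (0 : ℝ) < (N j).choose (K j) := by
        exact_mod_cast Nat.choose_pos hn.le
      have h2 : (2 : ℝ) ≤ K j := by exact_mod_cast hk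
      have h3 : (K j : ℝ) + 1 ≤ N j := by exact_mod_cast hn
      have hd : (0 : ℝ) < 2 * N j - K j - 1 := by linarith
      have hK : (0 : ℝ) < K j := by linarith
      have hfrac : (0 : ℝ) ≤ ((N j : ℝ) - K j) / K j := div_nonneg (by linarith) hK.le
      have hkey : (1 : ℝ) / (1 + 2 * (((N j : ℝ) - K j) / K j))
          ≤ ((K j : ℝ) + 1) / (2 * N j - K j - 1) := by
        rw [div_le_div_iff₀ (by linarith) hd]
        have h4 : (((N j : ℝ) - K j) / K j) * K j = N j - K j := div_mul_cancel₀ _ hK.ne'
        nlinarith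
      refine hkey.trans ?_
      show _ ≤ (m (N j) (K j) : ℝ) / (2 * (N j).choose (K j) / (K j + 1))
      rw [le_div_iff₀ (by positivity)]
      refine le_trans (le_of_eq ?_) hlr
      field_simp
    · intro j
      obtain ⟨hk, hn⟩ := hNK j
      have hc : (0 : ℝ) < (N j).choose (K j) := by
        exact_mod_cast Nat.choose_pos hn.le
      show (m (N j) (K j) : ℝ) / (2 * (N j).choose (K j) / (K j + 1)) ≤ 1
      rw [div_le_one (by positivity)]
      exact upper_real hn

end Pool.Agent.Results.MP_07f90a_co.SmallCodimension
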