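import Mathlib
import Pool.Agent.H63.ZT.Base

/-!
# MP_07f90a_co: `k`-uniform families where every `(k+1)`-set spans `0` or `2` edges

For `k = 1 + a + 2 b + 3 c + 5 d` and every `n ≥ k`,
`m(n, k) ≥ (1/2)^a (5/18)^b (1/4)^c (9/64)^d * C(n, k)`.

The building blocks are `k = 2` (random two-colouring, `1/2`), `k = 3` (blow-up of the six vertex
projective plane, `5/18`), `k = 4` (diamonds of a random tournament, `1/4`) and the new one,
`k = 6` (six-vertex subtournaments with Pfaffian `± 5` in a random tournament, `9/64`); they are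
combined by the cup product `{E : the first p + 1 elements of E form an edge of the first family,
the last q + 1 elements of E form an edge of the second family}`.
-/

set_option autoImplicit false

namespace Pool.Agent.Results.MP_07f90a_co.TournamentProductBound

open Pool.Agent.H63ZT

/-- A family `H` of `k`-element subsets of an `n`-element set is admissible if every
`(k+1)`-element subset contains exactly `0` or exactly `2` members of `H`. -/
def Admissible (n k : ℕ) (H : Finset (Finset (Fin n))) : Prop :=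
  (∀ E ∈ H, E.card = k) ∧
    ∀ S : Finset (Fin n), S.card = k + 1 →
      (H.filter (fun E => E ⊆ S)).card = 0 ∨ (H.filter (fun E => E ⊆ S)).card = 2

/-- `m n k` is the largest size of an admissible `k`-uniform family on `n` points. -/
noncomputable def m (n k : ℕ) : ℕ :=
  sSup {h : ℕ | ∃ H : Finset (Finset (Fin n)), Admissible n k H ∧ H.card = h}

lemma le_m {n k : ℕ} {H : Finset (Finset (Fin n))} (hH : Admissible n k H) : H.card ≤ m n k := by
  refine le_csSup ⟨Fintype.card (Finset (Fin n)), ?_⟩ ⟨H, hH, rfl⟩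
  rintro _ ⟨H', -, rfl⟩
  exact Finset.card_le_univ _

lemma dense_iter {n p q a b c d : ℕ} (hp : Dense n (p + 1) a b) (hq : Dense n (q + 1) c d)
    (t : ℕ) : Dense n (p + t * q + 1) (a * c ^ t) (b * d ^ t) := by
  induction t with
  | zero => simpa using hp
  | succ t ih =>
    have h := Dense.cup ih hq
    have e1 : p + t * q + q + 1 = p + (t + 1) * q + 1 := by ring
    rw [e1, mul_assoc, mul_assoc, ← pow_succ, ← pow_succ] at h
    exact h

lemma dense_all (n a b c d : ℕ) : Dense n (1 + a + 2 * b + 3 * c + 5 * d)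
    (5 ^ b * 9 ^ d) (2 ^ a * 18 ^ b * 4 ^ c * 64 ^ d) := by
  have h1 := dense_iter (p := 0) (dense1 n) (q := 1) (dense2 n) a
  have h2 := dense_iter h1 (q := 2) (dense3 n) b
  have h3 := dense_iter h2 (q := 3) (dense4 n) c
  have h4 := dense_iter h3 (q := 5) (dense6 n) d
  have e1 : 0 + a * 1 + b * 2 + c * 3 + d * 5 + 1 = 1 + a + 2 * b + 3 * c + 5 * d := by ring
  rw [e1] at h4
  simpa using h4

/-- **Theorem.** `m(n, k) ≥ (1/2)^a (5/18)^b (1/4)^c (9/64)^d C(n, k)` for
`k = 1 + a + 2 b + 3 c + 5 d`. -/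
theorem result (n a b c d : ℕ) :
    (1 / 2 : ℝ) ^ a * (5 / 18) ^ b * (1 / 4) ^ c * (9 / 64) ^ d *
      (n.choose (1 + a + 2 * b + 3 * c + 5 * d) : ℝ) ≤
      (m n (1 + a + 2 * b + 3 * c + 5 * d) : ℝ) := by
  set k := 1 + a + 2 * b + 3 * c + 5 * d with hk
  rcases lt_or_ge n k with hn | hn
  · rw [Nat.choose_eq_zero_of_lt hn]
    simp
  obtain ⟨H, hH1, hH2, hH3⟩ := exists_fam (by omega) hn (hk ▸ dense_all n a b c d)
  have hm : H.card ≤ m n k := le_m ⟨hH1, hH2⟩
  have hm' : (H.card : ℝ) ≤ m n k := by exact_mod_cast hm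
  have h4 : ((5 : ℝ) ^ b * 9 ^ d) * (n.choose k : ℝ) ≤
      (2 ^ a * 18 ^ b * 4 ^ c * 64 ^ d) * (H.card : ℝ) := by exact_mod_cast hH3
  have h5 : (0 : ℝ) < 2 ^ a * 18 ^ b * 4 ^ c * 64 ^ d := by positivity
  have h6 : (1 / 2 : ℝ) ^ a * (5 / 18) ^ b * (1 / 4) ^ c * (9 / 64) ^ d * (n.choose k : ℝ) =
      ((5 : ℝ) ^ b * 9 ^ d) * (n.choose k : ℝ) / (2 ^ a * 18 ^ b * 4 ^ c * 64 ^ d) := by
    rw [div_pow, div_pow, div_pow, div_pow, one_pow, one_pow]
    field_simp
  rw [h6, div_le_iff₀ h5]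
  nlinarith [mul_le_mul_of_nonneg_left hm' h5.le]

end Pool.Agent.Results.MP_07f90a_co.TournamentProductBound
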